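import Pool.Agent.Run7.h197.ES.One

/-!
Lower bounds for `G (a ^ n, b ^ n)`, `G` a squarefree form.
-/

set_option autoImplicit false

namespace Run7.h197.ES

open Finset NumberField Polynomial

/-- the value of the form at the `n`-th powers -/
def pval (g : ℤ[X]) (n : ℕ) (a b : ℤ) : ℤ :=
  ∑ i ∈ range (g.natDegree + 1), g.coeff i * (a ^ n) ^ i * (b ^ n) ^ (g.natDegree - i)

section factor
variable {K : Type} [Field K]

lemma hom_prod (p : ℂ[X]) (hp : p.Splits) (A B : ℂ) :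
    ∑ i ∈ range (p.natDegree + 1), p.coeff i * A ^ i * B ^ (p.natDegree - i) =
      p.leadingCoeff * (p.roots.map fun α => A - α * B).prod := by
  have hcard : p.natDegree = p.roots.card := hp.natDegree_eq_card_roots
  by_cases hB : B = 0
  · rw [Finset.sum_range_succ, Finset.sum_eq_zero (fun i hi => ?_)]
    · rw [hB]
      simp only [mul_zero, sub_zero, Nat.sub_self, pow_zero, mul_one, zero_add, Multiset.map_const',
        Multiset.prod_replicate]
      rw [← hcard]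
      rfl
    · rw [hB, zero_pow, mul_zero]
      have := Finset.mem_range.1 hi
      omega
  · have h1 : ∑ i ∈ range (p.natDegree + 1), p.coeff i * A ^ i * B ^ (p.natDegree - i) =
        B ^ p.natDegree * p.eval (A / B) := by
      rw [eval_eq_sum_range, Finset.mul_sum]
      apply Finset.sum_congr rfl
      intro i hi
      have h2 : i ≤ p.natDegree := by
        have := Finset.mem_range.1 hi
        omega
      have h3 : B ^ p.natDegree = B ^ (p.natDegree - i) * B ^ i := by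
        rw [← pow_add]
        congr 1
        omega
      rw [h3, div_pow]
      field_simp
    rw [h1]
    conv_lhs => rw [hp.eq_prod_roots]
    rw [eval_mul, eval_C, eval_multiset_prod, Multiset.map_map]
    have h4 : (Multiset.map (fun α => A - α * B) p.roots).prod =
        (Multiset.map (fun α => B * (A / B - α)) p.roots).prod := by
      congr 1
      apply Multiset.map_congr rfl
      intro α _
      field_simp
    rw [h4, Multiset.prod_map_mul, Multiset.map_const', Multiset.prod_replicate, ← hcard]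
    have h5 : (Multiset.map (eval (A / B) ∘ fun a => X - C a) p.roots).prod =
        (Multiset.map (fun α => A / B - α) p.roots).prod := by
      congr 1
      apply Multiset.map_congr rfl
      intro α _
      simp
    rw [h5]
    have h6 : (C p.leadingCoeff * (Multiset.map (fun a => X - C a) p.roots).prod).natDegree =
        p.natDegree := by
      conv_rhs => rw [hp.eq_prod_roots]
    rw [h6]
    ring

end factor

lemma exists_common {ι : Type} (s : Finset ι) (P : ι → ℝ → Prop)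
    (hP : ∀ i ∈ s, ∃ c : ℝ, 0 < c ∧ P i c)
    (hmono : ∀ i (c c' : ℝ), 0 < c' → c' ≤ c → P i c → P i c') :
    ∃ c : ℝ, 0 < c ∧ c ≤ 1 ∧ ∀ i ∈ s, P i c := by
  classical
  induction s using Finset.induction_on with
  | empty => exact ⟨1, one_pos, le_rfl, by simp⟩
  | insert a s ha ih =>
    obtain ⟨c₁, hc₁, h1, h2⟩ := ih fun i hi => hP i (Finset.mem_insert_of_mem hi)
    obtain ⟨c₂, hc₂, h3⟩ := hP a (Finset.mem_insert_self a s)
    refine ⟨min c₁ c₂, lt_min hc₁ hc₂, (min_le_left _ _).trans h1, fun i hi => ?_⟩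
    rcases Finset.mem_insert.1 hi with rfl | hi
    · exact hmono _ _ _ (lt_min hc₁ hc₂) (min_le_right _ _) h3
    · exact hmono _ _ _ (lt_min hc₁ hc₂) (min_le_left _ _) (h2 i hi)

/-- at most one factor is small -/
lemma two_factors (α β : ℂ) (h : α ≠ β) : ∃ c : ℝ, 0 < c ∧ ∀ (A B : ℂ) (N : ℝ), 0 ≤ N →
    (‖A‖ = N ∨ ‖B‖ = N) → c * N ≤ max ‖A - α * B‖ ‖A - β * B‖ := by
  have hΔ : 0 < ‖α - β‖ := norm_pos_iff.2 (sub_ne_zero.2 h)
  have hD : 0 < 2 + ‖α‖ + ‖β‖ := by positivity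
  refine ⟨‖α - β‖ / (2 + ‖α‖ + ‖β‖), by positivity, ?_⟩
  intro A B N hN hAB
  obtain ⟨m, hm⟩ : ∃ m, m = max ‖A - α * B‖ ‖A - β * B‖ := ⟨_, rfl⟩
  rw [← hm, div_mul_eq_mul_div, div_le_iff₀ hD]
  have h1 : ‖A - α * B‖ ≤ m := by rw [hm]; exact le_max_left _ _
  have h2 : ‖A - β * B‖ ≤ m := by rw [hm]; exact le_max_right _ _
  have hm0 : 0 ≤ m := (norm_nonneg _).trans h1
  rcases hAB with h3 | h3
  · have e : (α - β) * A = α * (A - β * B) - β * (A - α * B) := by ring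
    calc ‖α - β‖ * N = ‖(α - β) * A‖ := by rw [norm_mul, h3]
      _ = ‖α * (A - β * B) - β * (A - α * B)‖ := by rw [e]
      _ ≤ ‖α * (A - β * B)‖ + ‖β * (A - α * B)‖ := norm_sub_le _ _
      _ = ‖α‖ * ‖A - β * B‖ + ‖β‖ * ‖A - α * B‖ := by rw [norm_mul, norm_mul]
      _ ≤ ‖α‖ * m + ‖β‖ * m := by gcongr
      _ ≤ m * (2 + ‖α‖ + ‖β‖) := by nlinarith
  · have e : (α - β) * B = (A - β * B) - (A - α * B) := by ring
    calc ‖α - β‖ * N = ‖(α - β) * B‖ := by rw [norm_mul, h3]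
      _ = ‖(A - β * B) - (A - α * B)‖ := by rw [e]
      _ ≤ ‖A - β * B‖ + ‖A - α * B‖ := norm_sub_le _ _
      _ ≤ m + m := add_le_add h2 h1
      _ ≤ m * (2 + ‖α‖ + ‖β‖) := by nlinarith [norm_nonneg α, norm_nonneg β, mul_nonneg hm0 (norm_nonneg α), mul_nonneg hm0 (norm_nonneg β)]

/-- the bound of `one_factor` -/
def OF (α : ℂ) (κ n₀ : ℕ) (c : ℝ) : Prop := ∀ n, n₀ ≤ n → ∀ (a b : ℤ) (M : ℕ), 2 ≤ M →
  |a| ≤ M → |b| ≤ M → (|a| = M ∨ |b| = M) → (a : ℂ) ^ n ≠ α * (b : ℂ) ^ n →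
    c * (M : ℝ) ^ n ≤ ‖(a : ℂ) ^ n - α * (b : ℂ) ^ n‖ * (M : ℝ) ^ (Nat.size n ^ κ)

lemma OF.mono {α : ℂ} {κ n₀ : ℕ} {c : ℝ} (h : OF α κ n₀ c) {κ' n₀' : ℕ} {c' : ℝ} (h1 : κ ≤ κ')
    (h2 : n₀ + 2 ≤ n₀') (h3 : c' ≤ c) : OF α κ' n₀' c' := by
  intro n hn a b M hM ha hb hab hne
  have hMr : (1 : ℝ) ≤ M := by exact_mod_cast (by omega : 1 ≤ M)
  have hg2 : 1 ≤ Nat.size n := Nat.size_pos.2 (by omega)
  calc c' * (M : ℝ) ^ n ≤ c * (M : ℝ) ^ n := mul_le_mul_of_nonneg_right h3 (by positivity)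
    _ ≤ ‖(a : ℂ) ^ n - α * (b : ℂ) ^ n‖ * (M : ℝ) ^ (Nat.size n ^ κ) :=
        h n (by omega) a b M hM ha hb hab hne
    _ ≤ _ := by
        apply mul_le_mul_of_nonneg_left _ (norm_nonneg _)
        exact pow_le_pow_right₀ hMr (Nat.pow_le_pow_right hg2 h1)

lemma OF_common (s : Finset ℂ) (h : ∀ α ∈ s, ∃ κ n₀ : ℕ, ∃ c : ℝ, 0 < c ∧ OF α κ n₀ c) :
    ∃ κ n₀ : ℕ, ∃ c : ℝ, 0 < c ∧ c ≤ 1 ∧ ∀ α ∈ s, OF α κ n₀ c := by
  classical
  induction s using Finset.induction_on with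
  | empty => exact ⟨0, 0, 1, one_pos, le_rfl, by simp⟩
  | insert a s ha ih =>
    obtain ⟨κ₁, n₁, c₁, hc₁, h1, h2⟩ := ih fun i hi => h i (Finset.mem_insert_of_mem hi)
    obtain ⟨κ₂, n₂, c₂, hc₂, h3⟩ := h a (Finset.mem_insert_self a s)
    refine ⟨max κ₁ κ₂, n₁ + n₂ + 2, min c₁ c₂, lt_min hc₁ hc₂, (min_le_left _ _).trans h1, fun i hi => ?_⟩
    rcases Finset.mem_insert.1 hi with rfl | hi
    · exact h3.mono (le_max_right _ _) (by omega) (min_le_right _ _)
    · exact (h2 i hi).mono (le_max_left _ _) (by omega) (min_le_left _ _)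

open IntermediateField in
/-- the bound for every nonzero algebraic number -/
theorem OF_alg (α : ℂ) (hα : IsAlgebraic ℚ α) (h0 : α ≠ 0) :
    ∃ κ n₀ : ℕ, ∃ c : ℝ, 0 < c ∧ OF α κ n₀ c := by
  have hint : IsIntegral ℚ α := hα.isIntegral
  have hfd : FiniteDimensional ℚ ℚ⟮α⟯ := adjoin.finiteDimensional hint
  have hNF : NumberField ℚ⟮α⟯ := { to_charZero := inferInstance, to_finiteDimensional := hfd }
  obtain ⟨σ, hσ⟩ : ∃ σ : ℚ⟮α⟯ →+* ℂ, σ = algebraMap ℚ⟮α⟯ ℂ := ⟨_, rfl⟩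
  obtain ⟨α', hα'⟩ : ∃ α' : ℚ⟮α⟯, σ α' = α := ⟨AdjoinSimple.gen ℚ α, by rw [hσ]; exact AdjoinSimple.algebraMap_gen ℚ α⟩
  have h0' : α' ≠ 0 := by
    rintro rfl
    rw [map_zero] at hα'
    exact h0 hα'.symm
  obtain ⟨κ, n₀, c, hc, -, h⟩ := one_factor α' h0' σ
  rw [hα'] at h
  exact ⟨κ, n₀, c, hc, h⟩

/-- the roots of the polynomial -/
noncomputable def rts (g : ℤ[X]) : Finset ℂ := by
  classical
  exact (g.map (Int.castRingHom ℂ)).roots.toFinset

section
variable (g : ℤ[X]) (hsq : (g.map (Int.castRingHom ℚ)).Separable) (h0 : g.coeff 0 ≠ 0)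

lemma natDegree_mapC : (g.map (Int.castRingHom ℂ)).natDegree = g.natDegree :=
  natDegree_map_eq_of_injective (RingHom.injective_int _) g

include h0 in
lemma g_ne : g ≠ 0 := by
  rintro rfl
  exact h0 (coeff_zero 0)

include hsq in
/-- the factorisation -/
lemma pval_eq (n : ℕ) (a b : ℤ) :
    ((pval g n a b : ℤ) : ℂ) = (g.leadingCoeff : ℂ) * ∏ α ∈ rts g, ((a : ℂ) ^ n - α * (b : ℂ) ^ n) := by
  classical
  have hs : (g.map (Int.castRingHom ℂ)).Splits := IsAlgClosed.splits _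
  have h1 := hom_prod _ hs ((a : ℂ) ^ n) ((b : ℂ) ^ n)
  rw [natDegree_mapC] at h1
  have h2 : ((pval g n a b : ℤ) : ℂ) = ∑ i ∈ range (g.natDegree + 1),
      (g.map (Int.castRingHom ℂ)).coeff i * ((a : ℂ) ^ n) ^ i * ((b : ℂ) ^ n) ^ (g.natDegree - i) := by
    unfold pval
    push_cast
    apply Finset.sum_congr rfl
    intro i _
    rw [coeff_map]
    rfl
  have hsep : (g.map (Int.castRingHom ℂ)).Separable := by
    have : g.map (Int.castRingHom ℂ) = (g.map (Int.castRingHom ℚ)).map (algebraMap ℚ ℂ) := by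
      rw [Polynomial.map_map]
      congr 1
    rw [this]
    exact hsq.map
  have hnd := nodup_roots hsep
  have hlc : (g.map (Int.castRingHom ℂ)).leadingCoeff = (g.leadingCoeff : ℂ) :=
    leadingCoeff_map_of_injective (RingHom.injective_int _) g
  rw [h2, h1, hlc]
  congr 1
  rw [Finset.prod_eq_multiset_prod]
  congr 1
  unfold rts
  rw [Multiset.toFinset_val, Multiset.dedup_eq_self.2 hnd]

include hsq in
lemma card_rts : (rts g).card = g.natDegree := by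
  classical
  have hs : (g.map (Int.castRingHom ℂ)).Splits := IsAlgClosed.splits _
  have hsep : (g.map (Int.castRingHom ℂ)).Separable := by
    have : g.map (Int.castRingHom ℂ) = (g.map (Int.castRingHom ℚ)).map (algebraMap ℚ ℂ) := by
      rw [Polynomial.map_map]
      congr 1
    rw [this]
    exact hsq.map
  unfold rts
  rw [Multiset.toFinset_card_of_nodup (nodup_roots hsep), ← hs.natDegree_eq_card_roots, natDegree_mapC]

include h0 in
lemma rts_alg (α : ℂ) (hα : α ∈ rts g) : IsAlgebraic ℚ α ∧ α ≠ 0 := by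
  classical
  unfold rts at hα
  rw [Multiset.mem_toFinset] at hα
  have hg0 : g.map (Int.castRingHom ℂ) ≠ 0 :=
    (Polynomial.map_ne_zero_iff (RingHom.injective_int _)).2 (g_ne g h0)
  have hr : (g.map (Int.castRingHom ℂ)).eval α = 0 := (mem_roots hg0).1 hα
  constructor
  · refine ⟨g.map (Int.castRingHom ℚ), (Polynomial.map_ne_zero_iff (RingHom.injective_int _)).2 (g_ne g h0), ?_⟩
    rw [aeval_def, eval₂_map]
    rw [eval_map] at hr
    rw [show (algebraMap ℚ ℂ).comp (Int.castRingHom ℚ) = Int.castRingHom ℂ from RingHom.ext_int _ _]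
    exact hr
  · rintro rfl
    rw [← coeff_zero_eq_eval_zero, coeff_map, eq_intCast] at hr
    exact h0 (by exact_mod_cast hr)

include hsq h0 in
/-- **the lower bound for the form** -/
theorem form_lower (hk : 1 ≤ g.natDegree) :
    ∃ κ n₀ : ℕ, ∃ c : ℝ, 0 < c ∧ c ≤ 1 ∧ ∀ n, n₀ ≤ n → ∀ (a b : ℤ) (M : ℕ), 2 ≤ M →
      |a| ≤ M → |b| ≤ M → (|a| = M ∨ |b| = M) → pval g n a b ≠ 0 →
      c * (M : ℝ) ^ (g.natDegree * n) ≤ |(pval g n a b : ℝ)| * (M : ℝ) ^ (Nat.size n ^ κ) := by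
  classical
  obtain ⟨κ, n₀, c₁, hc₁, hc₁1, hOF⟩ := OF_common (rts g) fun α hα =>
    OF_alg α (rts_alg g h0 α hα).1 (rts_alg g h0 α hα).2
  obtain ⟨c₂, hc₂, hc₂1, hpair⟩ := exists_common ((rts g) ×ˢ (rts g))
    (fun i c => i.1 ≠ i.2 → ∀ (A B : ℂ) (N : ℝ), 0 ≤ N → (‖A‖ = N ∨ ‖B‖ = N) →
      c * N ≤ max ‖A - i.1 * B‖ ‖A - i.2 * B‖)
    (by
      rintro ⟨α, β⟩ -
      by_cases h : α = β
      · exact ⟨1, one_pos, fun h' => absurd h h'⟩
      · obtain ⟨c, hc, hcc⟩ := two_factors α β h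
        exact ⟨c, hc, fun _ => hcc⟩)
    (by
      intro i c c' _ hcc' h hne A B N hN hAB
      exact (mul_le_mul_of_nonneg_right hcc' hN).trans (h hne A B N hN hAB))
  refine ⟨κ, n₀, c₁ * c₂ ^ (g.natDegree - 1), by positivity,
    mul_le_one₀ hc₁1 (by positivity) (pow_le_one₀ hc₂.le hc₂1), ?_⟩
  intro n hn a b M hM ha hb hab hne
  have hMr : (1 : ℝ) ≤ M := by exact_mod_cast (by omega : 1 ≤ M)
  have hval := pval_eq g hsq n a b
  obtain ⟨L, hL⟩ : ∃ L : ℂ → ℝ, L = fun α => ‖(a : ℂ) ^ n - α * (b : ℂ) ^ n‖ := ⟨_, rfl⟩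
  have hL0 : ∀ α, 0 ≤ L α := fun α => by rw [hL]; exact norm_nonneg _
  have hnorm : |(pval g n a b : ℝ)| = |(g.leadingCoeff : ℝ)| * ∏ α ∈ rts g, L α := by
    have h1 := congrArg norm hval
    rw [norm_mul, norm_prod, Complex.norm_intCast, Complex.norm_intCast] at h1
    rw [h1, hL]
  have hlc : (1 : ℝ) ≤ |(g.leadingCoeff : ℝ)| := by
    have h1 : g.leadingCoeff ≠ 0 := leadingCoeff_ne_zero.2 (g_ne g h0)
    have h2 : 1 ≤ |g.leadingCoeff| := Int.one_le_abs h1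
    exact_mod_cast h2
  have hne' : ∀ α ∈ rts g, (a : ℂ) ^ n ≠ α * (b : ℂ) ^ n := by
    intro α hα h
    apply hne
    have h1 : ((pval g n a b : ℤ) : ℂ) = 0 := by
      rw [hval, Finset.prod_eq_zero hα (by rw [h, sub_self]), mul_zero]
    exact_mod_cast h1
  have hcard := card_rts g hsq
  have hnonempty : (rts g).Nonempty := by
    rw [← Finset.card_pos, hcard]
    exact hk
  obtain ⟨α₀, hα₀, hmin⟩ := Finset.exists_min_image (rts g) L hnonempty
  have hMn : (‖((a : ℂ) ^ n)‖ = (M : ℝ) ^ n ∨ ‖((b : ℂ) ^ n)‖ = (M : ℝ) ^ n) := by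
    rcases hab with h | h
    · left
      rw [norm_pow, Complex.norm_intCast]
      congr 1
      exact_mod_cast h
    · right
      rw [norm_pow, Complex.norm_intCast]
      congr 1
      exact_mod_cast h
  have hother : ∀ α ∈ (rts g).erase α₀, c₂ * (M : ℝ) ^ n ≤ L α := by
    intro α hα
    have hαr := Finset.mem_of_mem_erase hα
    have h1 := hpair (α, α₀) (Finset.mem_product.2 ⟨hαr, hα₀⟩) (Finset.ne_of_mem_erase hα)
      ((a : ℂ) ^ n) ((b : ℂ) ^ n) ((M : ℝ) ^ n) (by positivity) hMn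
    have h2 : max ‖(a : ℂ) ^ n - α * (b : ℂ) ^ n‖ ‖(a : ℂ) ^ n - α₀ * (b : ℂ) ^ n‖ = L α := by
      have h3 := hmin α hαr
      rw [hL] at h3 ⊢
      exact max_eq_left h3
    exact h1.trans h2.le
  have hprod : ∏ α ∈ rts g, L α = L α₀ * ∏ α ∈ (rts g).erase α₀, L α :=
    (Finset.mul_prod_erase _ _ hα₀).symm
  have hpow : (c₂ * (M : ℝ) ^ n) ^ (g.natDegree - 1) ≤ ∏ α ∈ (rts g).erase α₀, L α := by
    rw [← hcard, ← Finset.card_erase_of_mem hα₀, ← Finset.prod_const]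
    apply Finset.prod_le_prod
    · intro i _
      positivity
    · exact hother
  have h1 : c₁ * (M : ℝ) ^ n ≤ L α₀ * (M : ℝ) ^ (Nat.size n ^ κ) := by
    rw [hL]
    exact hOF α₀ hα₀ n hn a b M hM ha hb hab (hne' α₀ hα₀)
  have hMκ : (0 : ℝ) < (M : ℝ) ^ (Nat.size n ^ κ) := by positivity
  rw [hnorm, hprod]
  calc c₁ * c₂ ^ (g.natDegree - 1) * (M : ℝ) ^ (g.natDegree * n)
      = (c₁ * (M : ℝ) ^ n) * (c₂ * (M : ℝ) ^ n) ^ (g.natDegree - 1) := by
        have h2 : (M : ℝ) ^ (g.natDegree * n) = (M : ℝ) ^ n * ((M : ℝ) ^ n) ^ (g.natDegree - 1) := by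
          rw [← pow_succ', ← pow_mul]
          congr 1
          rw [Nat.sub_add_cancel hk, mul_comm]
        rw [h2, mul_pow]
        ring
    _ ≤ (L α₀ * (M : ℝ) ^ (Nat.size n ^ κ)) * ∏ α ∈ (rts g).erase α₀, L α :=
        mul_le_mul h1 hpow (by positivity) (mul_nonneg (hL0 _) hMκ.le)
    _ = 1 * (L α₀ * ∏ α ∈ (rts g).erase α₀, L α) * (M : ℝ) ^ (Nat.size n ^ κ) := by ring
    _ ≤ _ := by
        apply mul_le_mul_of_nonneg_right _ hMκ.le
        apply mul_le_mul_of_nonneg_right hlc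
        exact mul_nonneg (hL0 _) (Finset.prod_nonneg fun α _ => hL0 α)

end

end Run7.h197.ES
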