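import Mathlib

/-!
Integer points on finitely many lines through the origin.
-/

set_option autoImplicit false

namespace Run7.h197.ES

open Finset MvPolynomial

/-- the sum of the absolute values of the coefficients -/
def len (R : MvPolynomial (Fin 2) ℤ) : ℤ := ∑ d ∈ R.support, |R.coeff d|

lemma len_nonneg (R : MvPolynomial (Fin 2) ℤ) : 0 ≤ len R := Finset.sum_nonneg fun _ _ => abs_nonneg _

lemma one_le_len {R : MvPolynomial (Fin 2) ℤ} (hR : R ≠ 0) : 1 ≤ len R := by
  obtain ⟨d, hd⟩ := MvPolynomial.ne_zero_iff.1 hR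
  have h1 : |R.coeff d| ≤ len R :=
    Finset.single_le_sum (f := fun d => |R.coeff d|) (fun _ _ => abs_nonneg _)
      (mem_support_iff.2 hd)
  exact (Int.one_le_abs hd).trans h1

lemma deg_sum {k : Type} [CommSemiring k] {R : MvPolynomial (Fin 2) k} {d : Fin 2 →₀ ℕ} (hd : d ∈ R.support) {D : ℕ}
    (hD : R.totalDegree ≤ D) : d 0 + d 1 ≤ D := by
  have h := le_totalDegree hd
  rw [Finsupp.sum_fintype _ _ (fun i => rfl), Fin.sum_univ_two] at h
  exact h.trans hD

lemma eval_bound (R : MvPolynomial (Fin 2) ℤ) (x y m : ℤ) (hm : 1 ≤ m) (hx : |x| ≤ m)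
    (hy : |y| ≤ m) {D : ℕ} (hD : R.totalDegree ≤ D) : |eval ![x, y] R| ≤ len R * m ^ D := by
  rw [eval_eq']
  refine (Finset.abs_sum_le_sum_abs _ _).trans ?_
  unfold len
  rw [Finset.sum_mul]
  apply Finset.sum_le_sum
  intro d hd
  rw [abs_mul]
  apply mul_le_mul_of_nonneg_left _ (abs_nonneg _)
  rw [Fin.prod_univ_two, abs_mul, abs_pow, abs_pow]
  simp only [Matrix.cons_val_zero, Matrix.cons_val_one]
  calc |x| ^ d 0 * |y| ^ d 1 ≤ m ^ d 0 * m ^ d 1 := by
        apply mul_le_mul (pow_le_pow_left₀ (abs_nonneg _) hx _)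
          (pow_le_pow_left₀ (abs_nonneg _) hy _) (by positivity) (by positivity)
    _ = m ^ (d 0 + d 1) := (pow_add _ _ _).symm
    _ ≤ m ^ D := pow_le_pow_right₀ hm (deg_sum hd hD)

lemma hom_eval {k : Type} [CommRing k] {P : MvPolynomial (Fin 2) k} {n : ℕ} (hP : P.IsHomogeneous n)
    (r x y : k) : eval ![r * x, r * y] P = r ^ n * eval ![x, y] P := by
  rw [eval_eq', eval_eq', Finset.mul_sum]
  apply Finset.sum_congr rfl
  intro d hd
  have h2 : d 0 + d 1 = n := by
    have h3 := hP (mem_support_iff.1 hd)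
    rw [← h3, Finsupp.weight_apply, Finsupp.sum_fintype _ _ (fun i => by simp), Fin.sum_univ_two]
    simp
  rw [Fin.prod_univ_two, Fin.prod_univ_two]
  simp only [Matrix.cons_val_zero, Matrix.cons_val_one]
  rw [mul_pow, mul_pow, ← h2, pow_add]
  ring

/-- integer roots -/
lemma int_root (P : Polynomial ℤ) (hP : P ≠ 0) (B d : ℤ) (hB0 : 0 ≤ B) (hB : ∀ i, |P.coeff i| ≤ B)
    (hd : P.eval d = 0) : |d| ≤ B + 1 := by
  by_contra hcon
  push Not at hcon
  -- the leading term dominates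
  have h1 := Polynomial.eval_eq_sum_range (p := P) d
  rw [hd, Finset.sum_range_succ] at h1
  have hlc : 1 ≤ |P.coeff P.natDegree| := Int.one_le_abs (Polynomial.leadingCoeff_ne_zero.2 hP)
  have h2 : |P.coeff P.natDegree * d ^ P.natDegree| = |∑ i ∈ range P.natDegree, P.coeff i * d ^ i| := by
    have h3 : P.coeff P.natDegree * d ^ P.natDegree = -∑ i ∈ range P.natDegree, P.coeff i * d ^ i := by
      linarith
    rw [h3, abs_neg]
  have h3 : |∑ i ∈ range P.natDegree, P.coeff i * d ^ i| ≤ ∑ i ∈ range P.natDegree, B * |d| ^ i := by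
    refine (Finset.abs_sum_le_sum_abs _ _).trans (Finset.sum_le_sum fun i _ => ?_)
    rw [abs_mul, abs_pow]
    exact mul_le_mul_of_nonneg_right (hB i) (by positivity)
  have h4 : (∑ i ∈ range P.natDegree, |d| ^ i) * (|d| - 1) = |d| ^ P.natDegree - 1 :=
    geom_sum_mul _ _
  rw [← Finset.mul_sum] at h3
  have h5 : |d| ^ P.natDegree ≤ |P.coeff P.natDegree * d ^ P.natDegree| := by
    rw [abs_mul, abs_pow]
    exact le_mul_of_one_le_left (by positivity) hlc
  have h6 : |d| ^ P.natDegree ≤ B * ∑ i ∈ range P.natDegree, |d| ^ i := by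
    rw [h2] at h5
    exact h5.trans h3
  have h7 : 0 ≤ ∑ i ∈ range P.natDegree, |d| ^ i := Finset.sum_nonneg fun i _ => by positivity
  have h8 : B * ∑ i ∈ range P.natDegree, |d| ^ i ≤ (|d| - 1) * ∑ i ∈ range P.natDegree, |d| ^ i :=
    mul_le_mul_of_nonneg_right (by omega) h7
  have h9 : (|d| - 1) * ∑ i ∈ range P.natDegree, |d| ^ i = |d| ^ P.natDegree - 1 := by
    rw [mul_comm]
    exact h4
  omega

/-- the restriction to a line -/
noncomputable def restr (R : MvPolynomial (Fin 2) ℤ) (x y : ℤ) : Polynomial ℤ :=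
  ∑ d ∈ R.support, Polynomial.C (R.coeff d * (x ^ d 0 * y ^ d 1)) * Polynomial.X ^ (d 0 + d 1)

lemma restr_eval (R : MvPolynomial (Fin 2) ℤ) (x y t : ℤ) :
    (restr R x y).eval t = eval ![t * x, t * y] R := by
  unfold restr
  rw [Polynomial.eval_finsetSum, eval_eq']
  apply Finset.sum_congr rfl
  intro d _
  rw [Polynomial.eval_mul, Polynomial.eval_C, Polynomial.eval_pow, Polynomial.eval_X,
    Fin.prod_univ_two]
  simp only [Matrix.cons_val_zero, Matrix.cons_val_one]
  rw [mul_pow, mul_pow, pow_add]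
  ring

lemma restr_coeff (R : MvPolynomial (Fin 2) ℤ) (x y μ : ℤ) (hμ : 1 ≤ μ) (hx : |x| ≤ μ)
    (hy : |y| ≤ μ) {D : ℕ} (hD : R.totalDegree ≤ D) (i : ℕ) :
    |(restr R x y).coeff i| ≤ len R * μ ^ D := by
  unfold restr
  rw [Polynomial.finsetSum_coeff]
  refine (Finset.abs_sum_le_sum_abs _ _).trans ?_
  unfold len
  rw [Finset.sum_mul]
  apply Finset.sum_le_sum
  intro d hd
  rw [Polynomial.coeff_C_mul, Polynomial.coeff_X_pow, abs_mul, abs_mul, mul_assoc]
  apply mul_le_mul_of_nonneg_left _ (abs_nonneg _)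
  have h1 : |x ^ d 0 * y ^ d 1| ≤ μ ^ D := by
    rw [abs_mul, abs_pow, abs_pow]
    calc |x| ^ d 0 * |y| ^ d 1 ≤ μ ^ d 0 * μ ^ d 1 := by
          apply mul_le_mul (pow_le_pow_left₀ (abs_nonneg _) hx _)
            (pow_le_pow_left₀ (abs_nonneg _) hy _) (by positivity) (by positivity)
      _ = μ ^ (d 0 + d 1) := (pow_add _ _ _).symm
      _ ≤ μ ^ D := pow_le_pow_right₀ hμ (deg_sum hd hD)
  split_ifs
  · rw [abs_one, mul_one]
    exact h1
  · rw [abs_zero, mul_zero]
    positivity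

/-- the rational lines on which a form vanishes -/
theorem lines (E : MvPolynomial (Fin 2) ℤ) {e : ℕ} (hE : E.IsHomogeneous e) (hE0 : E ≠ 0) :
    ∃ μ : ℤ, 1 ≤ μ ∧ ∀ x y : ℤ, eval ![x, y] E = 0 → ∃ d x₀ y₀ : ℤ, |x₀| ≤ μ ∧ |y₀| ≤ μ ∧
      (x₀ ≠ 0 ∨ y₀ ≠ 0) ∧ x = d * x₀ ∧ y = d * y₀ := by
  classical
  obtain ⟨E', hE'⟩ : ∃ E' : MvPolynomial (Fin 2) ℚ, E' = MvPolynomial.map (Int.castRingHom ℚ) E := ⟨_, rfl⟩
  have hE'h : E'.IsHomogeneous e := by rw [hE']; exact hE.map _
  have hE'0 : E' ≠ 0 := by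
    rw [hE']
    intro h
    exact hE0 (MvPolynomial.map_injective _ (RingHom.injective_int _) (by rw [h, map_zero]))
  have hcast : ∀ x y : ℤ, eval ![(x : ℚ), (y : ℚ)] E' = ((eval ![x, y] E : ℤ) : ℚ) := by
    intro x y
    rw [hE', MvPolynomial.eval_map, eval₂_eq', eval_eq']
    push_cast
    apply Finset.sum_congr rfl
    intro d _
    rw [Fin.prod_univ_two, Fin.prod_univ_two]
    simp
  -- the univariate polynomial
  let p : Polynomial ℚ := MvPolynomial.aeval ![Polynomial.X, 1] E'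
  have hp : ∀ t : ℚ, p.eval t = eval ![t, 1] E' := by
    intro t
    show (MvPolynomial.aeval ![Polynomial.X, 1] E').eval t = _
    rw [MvPolynomial.aeval_def, eval₂_eq', eval_eq', Polynomial.eval_finsetSum]
    apply Finset.sum_congr rfl
    intro d _
    rw [Fin.prod_univ_two, Fin.prod_univ_two]
    simp
  have hp0 : p ≠ 0 := by
    intro h
    have h1 : ∀ x y : ℚ, y ≠ 0 → eval ![x, y] E' = 0 := by
      intro x y hy
      have h2 := hom_eval hE'h y (x / y) 1
      rw [mul_one, mul_div_cancel₀ _ hy, ← hp, h, Polynomial.eval_zero, mul_zero] at h2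
      exact h2
    have h3 : X 1 * E' = 0 := by
      apply MvPolynomial.funext
      intro v
      have hv : v = ![v 0, v 1] := by
        funext i
        fin_cases i <;> rfl
      rw [map_mul, eval_X, map_zero]
      by_cases h4 : v 1 = 0
      · rw [h4, zero_mul]
      · rw [hv, h1 _ _ h4, mul_zero]
    rcases mul_eq_zero.1 h3 with h4 | h4
    · exact X_ne_zero _ h4
    · exact hE'0 h4
  obtain ⟨μ, hμ⟩ : ∃ μ : ℤ, μ = 1 + ∑ r ∈ p.roots.toFinset, (|r.num| + (r.den : ℤ)) := ⟨_, rfl⟩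
  have hnn : 0 ≤ ∑ r ∈ p.roots.toFinset, (|r.num| + (r.den : ℤ)) :=
    Finset.sum_nonneg fun r _ => by positivity
  refine ⟨μ, by omega, ?_⟩
  intro x y hxy
  by_cases hy : y = 0
  · refine ⟨x, 1, 0, ?_, ?_, Or.inl one_ne_zero, by ring, by rw [hy]; ring⟩
    · rw [abs_one]
      omega
    · rw [abs_zero]
      omega
  · obtain ⟨r, hr⟩ : ∃ r : ℚ, r = (x : ℚ) / y := ⟨_, rfl⟩
    have hyQ : (y : ℚ) ≠ 0 := Int.cast_ne_zero.2 hy
    have hroot : r ∈ p.roots.toFinset := by
      rw [Multiset.mem_toFinset, Polynomial.mem_roots hp0, Polynomial.IsRoot.def, hp]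
      have h2 := hom_eval hE'h (y : ℚ) r 1
      rw [mul_one, hr, mul_div_cancel₀ _ hyQ, hcast, hxy, Int.cast_zero] at h2
      rw [hr]
      exact (mul_eq_zero.1 h2.symm).resolve_left (pow_ne_zero _ hyQ)
    have hle : |r.num| + (r.den : ℤ) ≤ ∑ r ∈ p.roots.toFinset, (|r.num| + (r.den : ℤ)) :=
      Finset.single_le_sum (f := fun r : ℚ => |r.num| + (r.den : ℤ)) (fun r _ => by positivity) hroot
    have hden : (r.den : ℤ) ∣ y := by
      rw [hr, ← Rat.divInt_eq_div]
      exact Rat.den_dvd x y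
    obtain ⟨d, hd⟩ := hden
    refine ⟨d, r.num, r.den, ?_, ?_, Or.inr (by exact_mod_cast r.den_nz), ?_, by rw [hd]; ring⟩
    · omega
    · rw [Nat.abs_cast]
      have := abs_nonneg r.num
      omega
    · have h3 : (x : ℚ) = r * y := by
        rw [hr]
        field_simp
      have h4 : (x : ℚ) = d * r.num := by
        rw [h3, hd]
        push_cast
        have h5 : r * r.den = r.num := Rat.mul_den_eq_num r
        rw [← h5]
        ring
      exact_mod_cast h4

end Run7.h197.ES
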