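import Pool.Agent.Run7.h197.ES.Zero
import Pool.Agent.Run7.h197.ES.Line

/-!
Integer points on the curves `G (A ^ n, B ^ n) = R`.
-/

set_option autoImplicit false

namespace Run7.h197.ES

open Finset MvPolynomial
open Pool.Agent.Y913.Bk (PolyB)

/-- the polynomial `G (A ^ n, B ^ n) - R` -/
noncomputable def curve (g : Polynomial ℤ) (A B : MvPolynomial (Fin 2) ℤ) (n : ℕ)
    (R : MvPolynomial (Fin 2) ℤ) : MvPolynomial (Fin 2) ℤ :=
  ∑ i ∈ range (g.natDegree + 1), C (g.coeff i) * (A ^ n) ^ i * (B ^ n) ^ (g.natDegree - i) - R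

lemma eval_curve (g : Polynomial ℤ) (A B : MvPolynomial (Fin 2) ℤ) (n : ℕ)
    (R : MvPolynomial (Fin 2) ℤ) (v : Fin 2 → ℤ) :
    eval v (curve g A B n R) = pval g n (eval v A) (eval v B) - eval v R := by
  unfold curve pval
  rw [map_sub, map_sum]
  simp only [map_mul, map_pow, eval_C]

/-- scaling -/
lemma pval_smul (g : Polynomial ℤ) (n : ℕ) (r a b : ℤ) :
    pval g n (r * a) (r * b) = r ^ (n * g.natDegree) * pval g n a b := by
  unfold pval
  rw [Finset.mul_sum]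
  apply Finset.sum_congr rfl
  intro i hi
  have h1 : n * g.natDegree = n * i + n * (g.natDegree - i) := by
    rw [← mul_add]
    congr 1
    have := Finset.mem_range.1 hi
    omega
  rw [h1, pow_add, mul_pow, mul_pow, mul_pow, mul_pow, ← pow_mul r, ← pow_mul r]
  ring

/-- **points where `R` does not vanish** -/
theorem partA (g : Polynomial ℤ) (hsq : (g.map (Int.castRingHom ℚ)).Separable) (h0 : g.coeff 0 ≠ 0)
    (hk : 1 ≤ g.natDegree) :
    ∃ κ n₀ : ℕ, ∃ c : ℝ, 1 ≤ c ∧ ∀ (a : ℕ) (A B : MvPolynomial (Fin 2) ℤ) (γ : ℝ), 1 ≤ γ →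
      (∀ x y : ℤ, (max |(x : ℝ)| |(y : ℝ)|) ^ a ≤ γ * max |(eval ![x, y] A : ℝ)| |(eval ![x, y] B : ℝ)|) →
      ∀ n, n₀ ≤ n → ∀ (R : MvPolynomial (Fin 2) ℤ) (s : ℕ), 2 * a * Nat.size n ^ κ ≤ s →
        R.totalDegree + s ≤ a * (g.natDegree * n) → ∀ x y : ℤ, eval ![x, y] (curve g A B n R) = 0 →
          eval ![x, y] R ≠ 0 →
          (max |(x : ℝ)| |(y : ℝ)|) ^ s ≤ c * γ ^ (2 * (g.natDegree * n)) * (len R : ℝ) ^ 2 := by
  obtain ⟨κ, n₁, c, hc, hc1, hlow⟩ := form_lower g hsq h0 hk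
  obtain ⟨g2, hg2⟩ := ((PolyB.const 2).mul (PolyB.id.pow κ)).le_two_pow
  refine ⟨κ, n₁ + 2 ^ (g2 + 2), 1 / c ^ 2, ?_, ?_⟩
  · rw [one_le_div (by positivity)]
    exact pow_le_one₀ hc.le hc1
  intro a A B γ hγ1 hγ n hn R s hs hdeg x y hF hRne
  obtain ⟨q, hq⟩ : ∃ q, q = Nat.size n := ⟨_, rfl⟩
  rw [← hq] at hs
  have hqg : g2 + 2 < q := by
    rw [hq, Nat.lt_size]
    exact le_trans (Nat.le_add_left _ _) hn
  have h2qn : 2 ^ (q - 1) ≤ n := by
    rw [← Nat.lt_size, ← hq]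
    omega
  have hqn : q ^ κ ≤ n := by
    have h1 : 2 * q ^ κ ≤ 2 ^ q := hg2 q (by omega)
    have h2 : 2 ^ q = 2 * 2 ^ (q - 1) := by
      rw [← pow_succ']
      congr 1
      omega
    omega
  have hR0 : R ≠ 0 := by
    rintro rfl
    rw [map_zero] at hRne
    exact hRne rfl
  have hlen : (1 : ℝ) ≤ (len R : ℝ) := by exact_mod_cast one_le_len hR0
  obtain ⟨m, hm⟩ : ∃ m : ℕ, m = max x.natAbs y.natAbs := ⟨_, rfl⟩
  have hmR : max |(x : ℝ)| |(y : ℝ)| = (m : ℝ) := by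
    rw [hm, Nat.cast_max, Nat.cast_natAbs, Nat.cast_natAbs]
    push_cast
    rfl
  obtain ⟨Ax, hAx⟩ : ∃ Ax : ℤ, Ax = eval ![x, y] A := ⟨_, rfl⟩
  obtain ⟨Bx, hBx⟩ : ∃ Bx : ℤ, Bx = eval ![x, y] B := ⟨_, rfl⟩
  obtain ⟨M, hM⟩ : ∃ M : ℕ, M = max Ax.natAbs Bx.natAbs := ⟨_, rfl⟩
  have hMR : max |(Ax : ℝ)| |(Bx : ℝ)| = (M : ℝ) := by
    rw [hM, Nat.cast_max, Nat.cast_natAbs, Nat.cast_natAbs]
    push_cast
    rfl
  have hγ' := hγ x y
  rw [← hAx, ← hBx, hMR, hmR] at hγ'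
  rw [hmR]
  rw [eval_curve, ← hAx, ← hBx, sub_eq_zero] at hF
  have hγp : ∀ i : ℕ, (1 : ℝ) ≤ γ ^ i := fun i => one_le_pow₀ hγ1
  have hone : 1 ≤ 1 / c ^ 2 * γ ^ (2 * (g.natDegree * n)) * (len R : ℝ) ^ 2 := by
    have h1 : (1 : ℝ) ≤ 1 / c ^ 2 := by
      rw [one_le_div (by positivity)]
      exact pow_le_one₀ hc.le hc1
    exact one_le_mul_of_one_le_of_one_le (one_le_mul_of_one_le_of_one_le h1 (hγp _)) (one_le_pow₀ hlen)
  rcases Nat.eq_zero_or_pos m with hm0 | hm0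
  · rw [hm0, Nat.cast_zero]
    exact (pow_le_one₀ le_rfl zero_le_one).trans hone
  have hm1 : (1 : ℝ) ≤ m := by exact_mod_cast hm0
  have hsle : s ≤ a * (g.natDegree * n) := by omega
  by_cases hM2 : 2 ≤ M
  · have hMr : (1 : ℝ) ≤ M := by exact_mod_cast (by omega : 1 ≤ M)
    have habs : |Ax| = M ∨ |Bx| = M := by
      rw [hM, Nat.cast_max, Int.natCast_natAbs, Int.natCast_natAbs]
      rcases le_total |Ax| |Bx| with h | h
      · right
        rw [max_eq_right h]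
      · left
        rw [max_eq_left h]
    have h1 := hlow n (le_trans (Nat.le_add_right _ _) hn) Ax Bx M hM2
      (by rw [hM, Nat.cast_max, Int.natCast_natAbs, Int.natCast_natAbs]; exact le_max_left _ _)
      (by rw [hM, Nat.cast_max, Int.natCast_natAbs, Int.natCast_natAbs]; exact le_max_right _ _)
      habs (by rw [hF]; exact hRne)
    rw [← hq, hF] at h1
    have hqkn : q ^ κ ≤ g.natDegree * n := hqn.trans (Nat.le_mul_of_pos_left _ hk)
    obtain ⟨T, hT⟩ : ∃ T, T + q ^ κ = g.natDegree * n := ⟨g.natDegree * n - q ^ κ, by omega⟩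
    have hMq : (0 : ℝ) < (M : ℝ) ^ (q ^ κ) := by positivity
    have h2 : c * (M : ℝ) ^ T ≤ |(eval ![x, y] R : ℝ)| := by
      rw [← hT, pow_add, ← mul_assoc] at h1
      exact le_of_mul_le_mul_right h1 hMq
    have h3 : |(eval ![x, y] R : ℝ)| ≤ len R * (m : ℝ) ^ R.totalDegree := by
      have h4 := eval_bound R x y m (by exact_mod_cast hm0)
        (by rw [hm, Nat.cast_max, Int.natCast_natAbs, Int.natCast_natAbs]; exact le_max_left _ _)
        (by rw [hm, Nat.cast_max, Int.natCast_natAbs, Int.natCast_natAbs]; exact le_max_right _ _)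
        le_rfl
      exact_mod_cast h4
    -- powers of `m`
    have h5 : c * (m : ℝ) ^ (a * T) ≤ γ ^ (g.natDegree * n) * (len R * (m : ℝ) ^ R.totalDegree) := by
      calc c * (m : ℝ) ^ (a * T) = c * ((m : ℝ) ^ a) ^ T := by rw [pow_mul]
        _ ≤ c * (γ * M) ^ T := by
            apply mul_le_mul_of_nonneg_left _ hc.le
            exact pow_le_pow_left₀ (by positivity) hγ' _
        _ = γ ^ T * (c * (M : ℝ) ^ T) := by
            rw [mul_pow]
            ring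
        _ ≤ γ ^ (g.natDegree * n) * (len R * (m : ℝ) ^ R.totalDegree) := by
            apply mul_le_mul (pow_le_pow_right₀ hγ1 (by omega)) (h2.trans h3) (by positivity)
              (by positivity)
    have h6 : c * (m : ℝ) ^ s ≤ γ ^ (g.natDegree * n) * len R * (m : ℝ) ^ (a * q ^ κ) := by
      have h7 : c * (m : ℝ) ^ s * (m : ℝ) ^ (a * T) ≤
          γ ^ (g.natDegree * n) * len R * (m : ℝ) ^ (a * q ^ κ) * (m : ℝ) ^ (a * T) := by
        calc c * (m : ℝ) ^ s * (m : ℝ) ^ (a * T) = (c * (m : ℝ) ^ (a * T)) * (m : ℝ) ^ s := by ring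
          _ ≤ (γ ^ (g.natDegree * n) * (len R * (m : ℝ) ^ R.totalDegree)) * (m : ℝ) ^ s :=
              mul_le_mul_of_nonneg_right h5 (by positivity)
          _ = γ ^ (g.natDegree * n) * len R * (m : ℝ) ^ (R.totalDegree + s) := by
              rw [pow_add]
              ring
          _ ≤ γ ^ (g.natDegree * n) * len R * (m : ℝ) ^ (a * (g.natDegree * n)) := by
              apply mul_le_mul_of_nonneg_left _ (by positivity)
              exact pow_le_pow_right₀ hm1 hdeg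
          _ = _ := by
              rw [← hT, mul_add, add_comm (a * T), pow_add]
              ring
      exact le_of_mul_le_mul_right h7 (by positivity)
    have h7 : 2 * (a * q ^ κ) ≤ s := by
      rw [← mul_assoc]
      exact hs
    have h8 : c ^ 2 * (m : ℝ) ^ s * (m : ℝ) ^ s ≤
        γ ^ (2 * (g.natDegree * n)) * (len R : ℝ) ^ 2 * (m : ℝ) ^ s := by
      calc c ^ 2 * (m : ℝ) ^ s * (m : ℝ) ^ s = (c * (m : ℝ) ^ s) ^ 2 := by ring
        _ ≤ (γ ^ (g.natDegree * n) * len R * (m : ℝ) ^ (a * q ^ κ)) ^ 2 :=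
            pow_le_pow_left₀ (by positivity) h6 2
        _ = γ ^ (2 * (g.natDegree * n)) * (len R : ℝ) ^ 2 * (m : ℝ) ^ (2 * (a * q ^ κ)) := by
            rw [mul_comm 2 (g.natDegree * n), mul_comm 2 (a * q ^ κ), pow_mul, pow_mul]
            ring
        _ ≤ _ := by
            apply mul_le_mul_of_nonneg_left _ (by positivity)
            exact pow_le_pow_right₀ hm1 h7
    have h9 : c ^ 2 * (m : ℝ) ^ s ≤ γ ^ (2 * (g.natDegree * n)) * (len R : ℝ) ^ 2 :=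
      le_of_mul_le_mul_right h8 (by positivity)
    rw [mul_assoc, one_div, ← div_eq_inv_mul, le_div_iff₀ (by positivity), mul_comm]
    exact h9
  · have hM1 : (M : ℝ) ≤ 1 := by exact_mod_cast (by omega : M ≤ 1)
    have h1 : (m : ℝ) ^ a ≤ γ := hγ'.trans (by nlinarith)
    calc (m : ℝ) ^ s ≤ (m : ℝ) ^ (a * (g.natDegree * n)) := pow_le_pow_right₀ hm1 hsle
      _ = ((m : ℝ) ^ a) ^ (g.natDegree * n) := by rw [pow_mul]
      _ ≤ γ ^ (g.natDegree * n) := pow_le_pow_left₀ (by positivity) h1 _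
      _ ≤ γ ^ (2 * (g.natDegree * n)) := pow_le_pow_right₀ hγ1 (by omega)
      _ = 1 * γ ^ (2 * (g.natDegree * n)) * 1 := by ring
      _ ≤ _ := by
          have h2 : (1 : ℝ) ≤ 1 / c ^ 2 := by
            rw [one_le_div (by positivity)]
            exact pow_le_one₀ hc.le hc1
          apply mul_le_mul _ (one_le_pow₀ hlen) zero_le_one (by positivity)
          exact mul_le_mul_of_nonneg_right h2 (by positivity)

/-- **all points** -/
theorem partB (g : Polynomial ℤ) (hsq : (g.map (Int.castRingHom ℚ)).Separable) (h0 : g.coeff 0 ≠ 0)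
    (hk : 1 ≤ g.natDegree) :
    ∃ κ n₀ : ℕ, ∃ c : ℝ, 1 ≤ c ∧ ∀ (a : ℕ) (A B : MvPolynomial (Fin 2) ℤ) (γ : ℝ), 1 ≤ a → 1 ≤ γ →
      (∀ x y : ℤ, (max |(x : ℝ)| |(y : ℝ)|) ^ a ≤ γ * max |(eval ![x, y] A : ℝ)| |(eval ![x, y] B : ℝ)|) →
      (∀ n, n₀ ≤ n → ∀ (R : MvPolynomial (Fin 2) ℤ) (s : ℕ), 2 * a * Nat.size n ^ κ ≤ s →
        R.totalDegree + s ≤ a * (g.natDegree * n) → ∀ x y : ℤ, eval ![x, y] (curve g A B n R) = 0 →
          (max |(x : ℝ)| |(y : ℝ)|) ^ s ≤ c * γ ^ (2 * (g.natDegree * n)) * (len R : ℝ) ^ 2 ∨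
            (eval ![x, y] R = 0 ∧ (eval ![x, y] A) ^ 2 = (eval ![x, y] B) ^ 2)) ∧
      (A.IsHomogeneous a → B.IsHomogeneous a → A ^ 2 ≠ B ^ 2 → ∃ C : ℝ, 1 ≤ C ∧
        ∀ n, n₀ ≤ n → ∀ (R : MvPolynomial (Fin 2) ℤ), R.totalDegree + 2 * a * Nat.size n ^ κ ≤
          a * (g.natDegree * n) →
          (∀ x₀ y₀ : ℤ, (x₀ ≠ 0 ∨ y₀ ≠ 0) → ∃ t : ℤ, eval ![t * x₀, t * y₀] (curve g A B n R) ≠ 0) →
          ∀ x y : ℤ, eval ![x, y] (curve g A B n R) = 0 →
            max |(x : ℝ)| |(y : ℝ)| ≤ C ^ n * len R) := by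
  obtain ⟨κ, n₁, c, hc1, hA⟩ := partA g hsq h0 hk
  obtain ⟨n₂, hz⟩ := pval_zero g hsq h0
  refine ⟨κ, n₁ + n₂ + 1, c, hc1, ?_⟩
  intro a A B γ ha hγ1 hγ
  have hfirst : ∀ n, n₁ + n₂ + 1 ≤ n → ∀ (R : MvPolynomial (Fin 2) ℤ) (s : ℕ), 2 * a * Nat.size n ^ κ ≤ s →
        R.totalDegree + s ≤ a * (g.natDegree * n) → ∀ x y : ℤ, eval ![x, y] (curve g A B n R) = 0 →
          (max |(x : ℝ)| |(y : ℝ)|) ^ s ≤ c * γ ^ (2 * (g.natDegree * n)) * (len R : ℝ) ^ 2 ∨
            (eval ![x, y] R = 0 ∧ (eval ![x, y] A) ^ 2 = (eval ![x, y] B) ^ 2) := by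
    intro n hn R s hs hdeg x y hF
    by_cases hR : eval ![x, y] R = 0
    · right
      refine ⟨hR, hz n (by omega) _ _ ?_⟩
      rw [eval_curve, hR, sub_zero] at hF
      exact hF
    · left
      exact hA a A B γ hγ1 hγ n (by omega) R s hs hdeg x y hF hR
  refine ⟨hfirst, fun hAh hBh hAB => ?_⟩
  have hE : (A ^ 2 - B ^ 2).IsHomogeneous (a * 2) := (hAh.pow 2).sub (hBh.pow 2)
  obtain ⟨μ, hμ1, hlines⟩ := lines (A ^ 2 - B ^ 2) hE (sub_ne_zero.2 hAB)
  obtain ⟨k, hkd⟩ : ∃ k, k = g.natDegree := ⟨_, rfl⟩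
  rw [← hkd] at hfirst hk ⊢
  have hμr : (1 : ℝ) ≤ (μ : ℝ) := by exact_mod_cast hμ1
  refine ⟨c * γ ^ (2 * k) + 2 * (μ : ℝ) ^ (a * k + 1), ?_, ?_⟩
  · have h1 : (1 : ℝ) ≤ c * γ ^ (2 * k) := one_le_mul_of_one_le_of_one_le hc1 (one_le_pow₀ hγ1)
    have h2 : (0 : ℝ) ≤ 2 * (μ : ℝ) ^ (a * k + 1) := by positivity
    linarith
  intro n hn R hdeg hline x y hF
  have hn1 : 1 ≤ n := by omega
  by_cases hxy : x = 0 ∧ y = 0
  · rw [hxy.1, hxy.2, Int.cast_zero, abs_zero, max_self]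
    have h1 : (0 : ℝ) ≤ len R := by exact_mod_cast len_nonneg R
    positivity
  have hm1 : (1 : ℝ) ≤ max |(x : ℝ)| |(y : ℝ)| := by
    rcases not_and_or.1 hxy with h | h
    · refine le_trans ?_ (le_max_left _ _)
      exact_mod_cast Int.one_le_abs h
    · refine le_trans ?_ (le_max_right _ _)
      exact_mod_cast Int.one_le_abs h
  have hR0 : R ≠ 0 := by
    rintro rfl
    obtain ⟨t, ht⟩ := hline x y (not_and_or.1 hxy)
    apply ht
    rw [eval_curve, map_zero, sub_zero] at hF ⊢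
    rw [hom_eval hAh, hom_eval hBh, pval_smul, hF, mul_zero]
  have hlen : (1 : ℝ) ≤ (len R : ℝ) := by exact_mod_cast one_le_len hR0
  have hc0 : (0 : ℝ) < c := by linarith
  have hγ0 : (0 : ℝ) < γ := by linarith
  have hμ0 : (0 : ℝ) < μ := by linarith
  rcases hfirst n hn R (2 * a * Nat.size n ^ κ) le_rfl hdeg x y hF with h1 | ⟨hRxy, hsqr⟩
  · have hs2 : 2 ≤ 2 * a * Nat.size n ^ κ := by
      have h2 : 1 ≤ Nat.size n ^ κ := Nat.one_le_pow _ _ (Nat.size_pos.2 (by omega))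
      nlinarith
    obtain ⟨m, hm⟩ : ∃ m : ℝ, m = max |(x : ℝ)| |(y : ℝ)| := ⟨_, rfl⟩
    rw [← hm] at h1 hm1 ⊢
    have h2 : m ^ 2 ≤ c * γ ^ (2 * (k * n)) * (len R : ℝ) ^ 2 :=
      (pow_le_pow_right₀ hm1 hs2).trans h1
    have h3 : c * γ ^ (2 * (k * n)) ≤ (c * γ ^ (2 * k)) ^ n := by
      rw [mul_pow, ← pow_mul, ← mul_assoc 2 k n]
      apply mul_le_mul_of_nonneg_right _ (by positivity)
      exact le_self_pow₀ hc1 (by omega)
    have h4 : (1 : ℝ) ≤ (c * γ ^ (2 * k)) ^ n :=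
      one_le_pow₀ (one_le_mul_of_one_le_of_one_le hc1 (one_le_pow₀ hγ1))
    have h5 : m ^ 2 ≤ ((c * γ ^ (2 * k)) ^ n * len R) ^ 2 := by
      calc m ^ 2 ≤ c * γ ^ (2 * (k * n)) * (len R : ℝ) ^ 2 := h2
        _ ≤ (c * γ ^ (2 * k)) ^ n * (len R : ℝ) ^ 2 := mul_le_mul_of_nonneg_right h3 (by positivity)
        _ ≤ ((c * γ ^ (2 * k)) ^ n * (c * γ ^ (2 * k)) ^ n) * (len R : ℝ) ^ 2 := by
            apply mul_le_mul_of_nonneg_right _ (by positivity)
            exact le_mul_of_one_le_left (by positivity) h4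
        _ = _ := by ring
    have h6 := (pow_le_pow_iff_left₀ (by linarith) (by positivity) (by norm_num)).1 h5
    refine h6.trans ?_
    apply mul_le_mul_of_nonneg_right _ (by positivity)
    apply pow_le_pow_left₀ (by positivity)
    have : (0 : ℝ) ≤ 2 * (μ : ℝ) ^ (a * k + 1) := by positivity
    linarith
  · have hEz : eval ![x, y] (A ^ 2 - B ^ 2) = 0 := by
      rw [map_sub, map_pow, map_pow, hsqr, sub_self]
    obtain ⟨d, x₀, y₀, hx₀, hy₀, hne, hxd, hyd⟩ := hlines x y hEz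
    have hd0 : d ≠ 0 := by
      rintro rfl
      rw [zero_mul] at hxd hyd
      exact hxy ⟨hxd, hyd⟩
    have hP0 : restr R x₀ y₀ ≠ 0 := by
      intro h
      obtain ⟨t, ht⟩ := hline x₀ y₀ hne
      apply ht
      have h1 : eval ![t * x₀, t * y₀] R = 0 := by rw [← restr_eval, h, Polynomial.eval_zero]
      have h2 : pval g n (eval ![x₀, y₀] A) (eval ![x₀, y₀] B) = 0 := by
        rw [eval_curve, hRxy, sub_zero, hxd, hyd, hom_eval hAh, hom_eval hBh, pval_smul] at hF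
        exact (mul_eq_zero.1 hF).resolve_left (pow_ne_zero _ (pow_ne_zero _ hd0))
      rw [eval_curve, h1, sub_zero, hom_eval hAh, hom_eval hBh, pval_smul, h2, mul_zero]
    have hroot : (restr R x₀ y₀).eval d = 0 := by rw [restr_eval, ← hxd, ← hyd]; exact hRxy
    have hD : R.totalDegree ≤ a * (k * n) := by omega
    have hb := int_root _ hP0 (len R * μ ^ (a * (k * n))) d
      (mul_nonneg (len_nonneg R) (by positivity))
      (fun i => restr_coeff R x₀ y₀ μ hμ1 hx₀ hy₀ hD i) hroot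
    have hbr : |(d : ℝ)| ≤ len R * (μ : ℝ) ^ (a * (k * n)) + 1 := by exact_mod_cast hb
    have hmx : max |(x : ℝ)| |(y : ℝ)| ≤ |(d : ℝ)| * μ := by
      rw [hxd, hyd]
      push_cast
      rw [abs_mul, abs_mul]
      apply max_le
      · apply mul_le_mul_of_nonneg_left _ (abs_nonneg _)
        exact_mod_cast hx₀
      · apply mul_le_mul_of_nonneg_left _ (abs_nonneg _)
        exact_mod_cast hy₀
    have hμn : (1 : ℝ) ≤ (μ : ℝ) ^ (a * (k * n)) := one_le_pow₀ hμr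
    calc max |(x : ℝ)| |(y : ℝ)| ≤ |(d : ℝ)| * μ := hmx
      _ ≤ (len R * (μ : ℝ) ^ (a * (k * n)) + 1) * μ := mul_le_mul_of_nonneg_right hbr hμ0.le
      _ ≤ (2 * (len R * (μ : ℝ) ^ (a * (k * n)))) * μ := by
          apply mul_le_mul_of_nonneg_right _ hμ0.le
          have : (1 : ℝ) ≤ len R * (μ : ℝ) ^ (a * (k * n)) := one_le_mul_of_one_le_of_one_le hlen hμn
          linarith
      _ = 2 * (μ : ℝ) ^ (a * (k * n) + 1) * len R := by ring
      _ ≤ (2 * (μ : ℝ) ^ (a * k + 1)) ^ n * len R := by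
          apply mul_le_mul_of_nonneg_right _ (by linarith)
          rw [mul_pow, ← pow_mul]
          apply mul_le_mul (le_self_pow₀ (by norm_num) (by omega)) _ (by positivity) (by positivity)
          apply pow_le_pow_right₀ hμr
          nlinarith
      _ ≤ _ := by
          apply mul_le_mul_of_nonneg_right _ (by linarith)
          apply pow_le_pow_left₀ (by positivity)
          have : (0 : ℝ) ≤ c * γ ^ (2 * k) := by positivity
          linarith

end Run7.h197.ES
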