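import Pool.Agent.Run7.h197.ST.Arch

/-!
Lower bounds for `|a ^ n - α b ^ n|`, `a`, `b` integers, `α` an algebraic number.
-/

set_option autoImplicit false

namespace Run7.h197.ES

open Finset NumberField Run7.h197.BK Run7.h197.ST

variable {K : Type} [Field K] [NumberField K]

/-- roots of unity are far from `1` -/
theorem roots_far (σ : K →+* ℂ) :
    ∃ c : ℝ, 0 < c ∧ ∀ x : K, (∃ N : ℕ, 1 ≤ N ∧ x ^ N = 1) → x ≠ 1 → c ≤ ‖σ x - 1‖ := by
  classical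
  have hfin : {x : K | IsIntegral ℤ x ∧ ∀ φ : K →+* ℂ, ‖φ x‖ ≤ 1}.Finite :=
    NumberField.Embeddings.finite_of_norm_le K ℂ 1
  obtain ⟨T, hT⟩ : ∃ T : Finset K, ∀ x, x ∈ T ↔ (IsIntegral ℤ x ∧ ∀ φ : K →+* ℂ, ‖φ x‖ ≤ 1) ∧ x ≠ 1 := by
    refine ⟨hfin.toFinset.filter (fun x => x ≠ 1), fun x => ?_⟩
    rw [Finset.mem_filter, Set.Finite.mem_toFinset]
    rfl
  have hmem : ∀ x : K, (∃ N : ℕ, 1 ≤ N ∧ x ^ N = 1) → x ≠ 1 → x ∈ T := by
    rintro x ⟨N, hN, hx⟩ hx1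
    rw [hT]
    refine ⟨⟨?_, fun φ => ?_⟩, hx1⟩
    · apply IsIntegral.of_pow (n := N) (by omega)
      rw [hx]
      exact isIntegral_one
    · have h1 : ‖φ x‖ ^ N = 1 := by rw [← norm_pow, ← map_pow, hx, map_one, norm_one]
      exact ((pow_eq_one_iff_of_nonneg (norm_nonneg _) (by omega)).1 h1).le
  rcases T.eq_empty_or_nonempty with h0 | hne
  · refine ⟨1, one_pos, fun x hx hx1 => ?_⟩
    have := hmem x hx hx1
    rw [h0] at this
    exact absurd this (Finset.notMem_empty x)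
  · obtain ⟨y, hy, hmin⟩ := Finset.exists_min_image T (fun x => ‖σ x - 1‖) hne
    refine ⟨‖σ y - 1‖, ?_, fun x hx hx1 => hmin x (hmem x hx hx1)⟩
    rw [norm_pos_iff, sub_ne_zero]
    intro h
    apply ((hT y).1 hy).2
    apply σ.injective
    rw [h, map_one]

/-- a quotient of integers -/
lemma exists_frac (α : K) (hα : α ≠ 0) :
    ∃ β m : 𝓞 K, β ≠ 0 ∧ m ≠ 0 ∧ α = (β : K) / (m : K) := by
  obtain ⟨β, m, hm, h⟩ := IsFractionRing.div_surjective (A := 𝓞 K) α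
  have hm0 : m ≠ 0 := nonZeroDivisors.ne_zero hm
  refine ⟨β, m, ?_, hm0, h.symm⟩
  rintro rfl
  rw [map_zero, zero_div] at h
  exact hα h.symm

/-- **the main estimate** -/
theorem close (α : K) (hα : α ≠ 0) (σ : K →+* ℂ) :
    ∃ (κ n₀ : ℕ), ∀ n, n₀ ≤ n → ∀ (a b : ℤ) (H : ℕ), a ≠ 0 → b ≠ 0 → |a| ≤ 2 ^ H → |b| ≤ 2 ^ H →
      1 ≤ H → (∀ N : ℕ, 1 ≤ N → ((a : K) ^ n / (α * (b : K) ^ n)) ^ N ≠ 1) →
      ‖(a : ℂ) ^ n / (σ α * (b : ℂ) ^ n) - 1‖ ≤ 1 / 2 →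
      (1 / 2 : ℝ) ^ (Nat.size n ^ κ * H) ≤ 2 * ‖(a : ℂ) ^ n / (σ α * (b : ℂ) ^ n) - 1‖ := by
  classical
  obtain ⟨β, m, hβ0, hm0, hαβ⟩ := exists_frac α hα
  obtain ⟨G, c₀, hc₀, hc₁, hγc, hG₀, hγG, hlogG⟩ := exists_bounds (K := K) (fun i : Bool => cond i β m)
    (by rintro (_ | _) <;> assumption)
  obtain ⟨κ, g0, hSB⟩ := SB_all K 2
  obtain ⟨G2, hG2⟩ := exists_nat_ge ‖Complex.log (σ α)‖
  obtain ⟨g1, hg1⟩ : ∃ g1, g1 = g0 + G + G2 + 20 := ⟨_, rfl⟩
  refine ⟨κ, 2 ^ g1, ?_⟩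
  intro n hn a b H ha0 hb0 haH hbH hH1 hroot hclose
  obtain ⟨g, hg⟩ : ∃ g, g = Nat.size n := ⟨_, rfl⟩
  rw [← hg]
  have hgg1 : g1 < g := by
    rw [hg, Nat.lt_size]
    exact hn
  have hn2g : n < 2 ^ g := by rw [hg]; exact Nat.lt_size_self n
  have hn1 : 1 ≤ n := le_trans Nat.one_le_two_pow hn
  have hσα : σ α ≠ 0 := (map_ne_zero σ).2 hα
  have haC : (a : ℂ) ≠ 0 := Int.cast_ne_zero.2 ha0
  have hbC : (b : ℂ) ≠ 0 := Int.cast_ne_zero.2 hb0
  obtain ⟨u, hu⟩ : ∃ u : ℂ, u = (a : ℂ) ^ n / (σ α * (b : ℂ) ^ n) := ⟨_, rfl⟩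
  rw [← hu] at hclose ⊢
  have hu0 : u ≠ 0 := by rw [hu]; exact div_ne_zero (pow_ne_zero _ haC) (mul_ne_zero hσα (pow_ne_zero _ hbC))
  have hlogu : ‖Complex.log u‖ ≤ 2 * ‖u - 1‖ := by
    have h1 := Complex.norm_log_one_add_half_le_self (z := u - 1) hclose
    rw [add_sub_cancel] at h1
    have := norm_nonneg (u - 1)
    linarith
  obtain ⟨k, hk⟩ : ∃ k : ℤ, (n : ℂ) * Complex.log ((a : ℂ) / b) - Complex.log (σ α) =
      Complex.log u + k * (2 * Real.pi * Complex.I) := by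
    rw [← Complex.exp_eq_exp_iff_exists_int, Complex.exp_sub, Complex.exp_nat_mul,
      Complex.exp_log (div_ne_zero haC hbC), Complex.exp_log hσα, Complex.exp_log hu0, hu, div_pow]
    field_simp
  have hkn : |k| ≤ g * |(n : ℤ)| := by
    have h1 := congrArg Complex.im hk
    have h2 : (Complex.log u + k * (2 * Real.pi * Complex.I)).im =
        (Complex.log u).im + k * (2 * Real.pi) := by
      simp
    have h3 : ((n : ℂ) * Complex.log ((a : ℂ) / b)).im = n * (Complex.log ((a : ℂ) / b)).im := by simp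
    rw [h2, Complex.sub_im, h3] at h1
    have hpi := Real.pi_pos
    have him : ∀ z : ℂ, |(Complex.log z).im| ≤ Real.pi := by
      intro z
      rw [Complex.log_im]
      exact Complex.abs_arg_le_pi z
    have h5 : |(n : ℝ) * (Complex.log ((a : ℂ) / b)).im| ≤ n * Real.pi := by
      rw [abs_mul, Nat.abs_cast]
      exact mul_le_mul_of_nonneg_left (him _) (Nat.cast_nonneg _)
    have h6 := abs_le.1 (him (σ α))
    have h7 := abs_le.1 (him u)
    have h8 := abs_le.1 h5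
    have h9 : |(k : ℝ)| * (2 * Real.pi) ≤ (n + 2) * Real.pi := by
      rw [← abs_of_pos (by positivity : 0 < 2 * Real.pi), ← abs_mul, abs_le]
      constructor <;> linarith
    have h10 : |(k : ℝ)| ≤ n + 2 := by
      have h11 : 0 ≤ |(k : ℝ)| * Real.pi := by positivity
      have h12 : |(k : ℝ)| * Real.pi ≤ (n + 2) * Real.pi := by linarith
      exact le_of_mul_le_mul_right h12 hpi
    have h13 : |k| ≤ ((n + 2 : ℕ) : ℤ) := by
      rw [← Int.cast_abs] at h10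
      exact_mod_cast h10
    refine h13.trans ?_
    rw [Nat.abs_cast]
    have : n + 2 ≤ g * n := by nlinarith
    exact_mod_cast this
  -- the linear form
  let aa : Option Bool → 𝓞 K := fun i => i.elim (a : 𝓞 K) (fun i => cond i β 1)
  let cc : Option Bool → 𝓞 K := fun i => i.elim (b : 𝓞 K) (fun i => cond i m 1)
  let ℓ : Option Bool → ℂ := fun i => i.elim (Complex.log ((a : ℂ) / b))
    (fun i => cond i (Complex.log (σ α)) (2 * Real.pi * Complex.I))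
  let bb : Option Bool → ℤ := fun i => i.elim (n : ℤ) (fun i => cond i (-1) (-k))
  have hLam : Lam ℓ bb = Complex.log u := by
    unfold Lam
    rw [Fintype.sum_option, Fintype.sum_bool]
    simp only [ℓ, bb, Option.elim_none, Option.elim_some, cond_true, cond_false]
    push_cast
    linear_combination hk
  have haK : ∀ ψ : K →+* ℂ, ψ (((a : 𝓞 K) : K)) = (a : ℂ) := fun ψ => by simp
  have hbK : ∀ ψ : K →+* ℂ, ψ (((b : 𝓞 K) : K)) = (b : ℂ) := fun ψ => by simp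
  have hone' : ∀ ψ : K →+* ℂ, ψ ((1 : 𝓞 K) : K) = 1 := fun ψ => by simp
  have hone : (1 : ℝ) ≤ 2 ^ (g * 1) := one_le_pow₀ (by norm_num)
  have hHg : (2 : ℝ) ^ H ≤ 2 ^ (g * H) :=
    pow_le_pow_right₀ (by norm_num) (Nat.le_mul_of_pos_left _ (by omega))
  have hGg : (2 : ℝ) ^ G ≤ 2 ^ (g * 1) := pow_le_pow_right₀ (by norm_num) (by omega)
  have hnt : ∀ N : ℕ, 1 ≤ N → Complex.exp (N * Lam ℓ bb) ≠ 1 := by
    intro N hN hexp
    rw [hLam, Complex.exp_nat_mul, Complex.exp_log hu0, hu] at hexp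
    apply hroot N hN
    apply σ.injective
    rw [map_pow, map_div₀, map_mul, map_pow, map_pow, map_intCast, map_intCast, map_one]
    exact hexp
  have hlow := SB.transfer hSB (τ := Bool) (by simp) g (by omega) H hH1 σ
    aa cc ℓ bb
    (by
      rintro (_ | _ | _)
      · exact Int.cast_ne_zero.2 ha0
      · exact one_ne_zero
      · exact hβ0)
    (by
      rintro (_ | _ | _)
      · exact Int.cast_ne_zero.2 hb0
      · exact one_ne_zero
      · exact hm0)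
    (by
      rintro ψ (_ | _ | _)
      · show ‖ψ (((a : 𝓞 K) : K))‖ ≤ 2 ^ (g * H)
        rw [haK, Complex.norm_intCast]
        refine le_trans ?_ hHg
        exact_mod_cast haH
      · show ‖ψ ((1 : 𝓞 K) : K)‖ ≤ 2 ^ (g * 1)
        rw [hone', norm_one]
        exact hone
      · show ‖ψ (β : K)‖ ≤ 2 ^ (g * 1)
        exact (hγG ψ true).trans hGg)
    (by
      rintro ψ (_ | _ | _)
      · show ‖ψ (((b : 𝓞 K) : K))‖ ≤ 2 ^ (g * H)
        rw [hbK, Complex.norm_intCast]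
        refine le_trans ?_ hHg
        exact_mod_cast hbH
      · show ‖ψ ((1 : 𝓞 K) : K)‖ ≤ 2 ^ (g * 1)
        rw [hone', norm_one]
        exact hone
      · show ‖ψ (m : K)‖ ≤ 2 ^ (g * 1)
        exact (hγG ψ false).trans hGg)
    (by
      rintro (_ | _ | _)
      · show Complex.exp (Complex.log ((a : ℂ) / b)) = σ (((a : 𝓞 K) : K)) / σ (((b : 𝓞 K) : K))
        rw [haK, hbK]
        exact Complex.exp_log (div_ne_zero haC hbC)
      · show Complex.exp (2 * Real.pi * Complex.I) = σ ((1 : 𝓞 K) : K) / σ ((1 : 𝓞 K) : K)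
        rw [Complex.exp_two_pi_mul_I, hone', div_one]
      · show Complex.exp (Complex.log (σ α)) = σ (β : K) / σ (m : K)
        rw [Complex.exp_log hσα, hαβ, map_div₀])
    (by
      rintro (_ | _)
      · show ‖(2 * Real.pi * Complex.I : ℂ)‖ ≤ g
        rw [norm_mul, norm_mul, Complex.norm_I, mul_one, Complex.norm_real, Real.norm_eq_abs,
          abs_of_pos Real.pi_pos, Complex.norm_ofNat]
        have h1 := Real.pi_lt_d2
        have h2 : (20 : ℝ) ≤ g := by exact_mod_cast (by omega : 20 ≤ g)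
        linarith
      · show ‖Complex.log (σ α)‖ ≤ g
        refine hG2.trans ?_
        exact_mod_cast (by omega : G2 ≤ g))
    (by
      show (n : ℤ) ≠ 0
      exact_mod_cast (by omega : n ≠ 0))
    (by
      show |(n : ℤ)| ≤ 2 ^ g
      rw [Nat.abs_cast]
      exact_mod_cast hn2g.le)
    (by
      rintro (_ | _)
      · show |-k| ≤ g * |(n : ℤ)|
        rw [abs_neg]
        exact hkn
      · show |(-1 : ℤ)| ≤ g * |(n : ℤ)|
        rw [Nat.abs_cast, abs_neg, abs_one]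
        have : 1 ≤ g * n := Nat.mul_pos (by omega) hn1
        exact_mod_cast this)
    hnt
  rw [hLam] at hlow
  exact hlow.trans hlogu

/-- the size of an integer -/
lemma size_le (M : ℕ) (hM : 2 ≤ M) : (2 : ℝ) ^ Nat.size M ≤ (M : ℝ) ^ 2 := by
  have h1 : 2 ^ (Nat.size M - 1) ≤ M := by
    rw [← Nat.lt_size]
    have : 0 < Nat.size M := Nat.size_pos.2 (by omega)
    omega
  have h2 : 2 ^ Nat.size M = 2 * 2 ^ (Nat.size M - 1) := by
    rw [← pow_succ']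
    congr 1
    have : 0 < Nat.size M := Nat.size_pos.2 (by omega)
    omega
  have h3 : 2 ^ Nat.size M ≤ M ^ 2 := by
    rw [h2, sq]
    exact Nat.mul_le_mul hM h1
  exact_mod_cast h3

/-- **one factor** -/
theorem one_factor (α : K) (hα : α ≠ 0) (σ : K →+* ℂ) :
    ∃ (κ n₀ : ℕ) (c : ℝ), 0 < c ∧ c ≤ 1 ∧ ∀ n, n₀ ≤ n → ∀ (a b : ℤ) (M : ℕ), 2 ≤ M →
      |a| ≤ M → |b| ≤ M → (|a| = M ∨ |b| = M) → (a : ℂ) ^ n ≠ σ α * (b : ℂ) ^ n →
      c * (M : ℝ) ^ n ≤ ‖(a : ℂ) ^ n - σ α * (b : ℂ) ^ n‖ * (M : ℝ) ^ (Nat.size n ^ κ) := by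
  obtain ⟨κ, n₀, hmain⟩ := close α hα σ
  obtain ⟨c₁, hc₁, hroots⟩ := roots_far σ
  have hσα : 0 < ‖σ α‖ := norm_pos_iff.2 ((map_ne_zero σ).2 hα)
  obtain ⟨A, hA⟩ : ∃ A, A = ‖σ α‖ := ⟨_, rfl⟩
  rw [← hA] at hσα
  obtain ⟨c₂, hc₂⟩ : ∃ c₂, c₂ = min c₁ (1 / 2) := ⟨_, rfl⟩
  have hc₂0 : 0 < c₂ := by rw [hc₂]; exact lt_min hc₁ (by norm_num)
  have hc₂h : c₂ ≤ 1 / 2 := by rw [hc₂]; exact min_le_right _ _
  have hc₂1 : c₂ ≤ c₁ := by rw [hc₂]; exact min_le_left _ _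
  obtain ⟨m₀, hm₀⟩ : ∃ m₀, m₀ = min (1 / 6) (A * (1 / 3)) := ⟨_, rfl⟩
  have hm₀0 : 0 < m₀ := by rw [hm₀]; exact lt_min (by norm_num) (by positivity)
  have hm₀6 : m₀ ≤ 1 / 6 := by rw [hm₀]; exact min_le_left _ _
  have hm₀A : m₀ ≤ A * (1 / 3) := by rw [hm₀]; exact min_le_right _ _
  obtain ⟨c, hc⟩ : ∃ c, c = m₀ * c₂ := ⟨_, rfl⟩
  have hcm : c ≤ m₀ := by rw [hc]; nlinarith
  refine ⟨κ + 1, n₀ + 2, c, by rw [hc]; positivity, by linarith, ?_⟩
  intro n hn a b M hM ha hb hab hne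
  have hn1 : 1 ≤ n := by omega
  have hMr : (2 : ℝ) ≤ M := by exact_mod_cast hM
  have hg2 : 2 ≤ Nat.size n := by
    have : 2 ^ 1 ≤ n := by omega
    exact Nat.lt_size.2 this
  have hMp : (1 : ℝ) ≤ (M : ℝ) ^ (Nat.size n ^ (κ + 1)) := one_le_pow₀ (by linarith)
  have hnorm0 := norm_nonneg ((a : ℂ) ^ n - σ α * (b : ℂ) ^ n)
  have hMn : (0 : ℝ) < (M : ℝ) ^ n := by positivity
  have haR : ‖(a : ℂ)‖ ≤ M := by
    rw [Complex.norm_intCast]
    exact_mod_cast ha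
  have hbR : ‖(b : ℂ)‖ ≤ M := by
    rw [Complex.norm_intCast]
    exact_mod_cast hb
  -- it is enough to have a lower bound for the norm without the power
  have hsuff : c * (M : ℝ) ^ n ≤ ‖(a : ℂ) ^ n - σ α * (b : ℂ) ^ n‖ →
      c * (M : ℝ) ^ n ≤ ‖(a : ℂ) ^ n - σ α * (b : ℂ) ^ n‖ * (M : ℝ) ^ (Nat.size n ^ (κ + 1)) :=
    fun h => h.trans (le_mul_of_one_le_right hnorm0 hMp)
  by_cases hb0 : b = 0
  · apply hsuff
    have h1 : |a| = M := by
      rcases hab with h | h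
      · exact h
      · rw [hb0, abs_zero] at h
        omega
    have h2 : ‖(a : ℂ)‖ = M := by
      rw [Complex.norm_intCast]
      exact_mod_cast h1
    rw [hb0, Int.cast_zero, zero_pow (by omega), mul_zero, sub_zero, norm_pow, h2]
    nlinarith
  by_cases ha0 : a = 0
  · apply hsuff
    have h1 : |b| = M := by
      rcases hab with h | h
      · rw [ha0, abs_zero] at h
        omega
      · exact h
    have h2 : ‖(b : ℂ)‖ = M := by
      rw [Complex.norm_intCast]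
      exact_mod_cast h1
    rw [ha0, Int.cast_zero, zero_pow (by omega), zero_sub, norm_neg, norm_mul, norm_pow, h2, ← hA]
    apply mul_le_mul_of_nonneg_right _ hMn.le
    linarith
  have haC : (a : ℂ) ≠ 0 := Int.cast_ne_zero.2 ha0
  have hbC : (b : ℂ) ≠ 0 := Int.cast_ne_zero.2 hb0
  have hσα0 : σ α ≠ 0 := (map_ne_zero σ).2 hα
  obtain ⟨u, hu⟩ : ∃ u : ℂ, u = (a : ℂ) ^ n / (σ α * (b : ℂ) ^ n) := ⟨_, rfl⟩
  have hden : σ α * (b : ℂ) ^ n ≠ 0 := mul_ne_zero hσα0 (pow_ne_zero _ hbC)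
  have hau : (a : ℂ) ^ n = u * (σ α * (b : ℂ) ^ n) := by
    rw [hu]
    field_simp
  have hdiff : (a : ℂ) ^ n - σ α * (b : ℂ) ^ n = (u - 1) * (σ α * (b : ℂ) ^ n) := by
    rw [hau]
    ring
  have hu1 : u ≠ 1 := by
    intro h
    apply hne
    rw [hau, h, one_mul]
  -- `u` far from `1`
  have hfar : ∀ δ : ℝ, 0 < δ → δ ≤ 1 / 2 → δ ≤ ‖u - 1‖ →
      m₀ * (2 * δ) * (M : ℝ) ^ n ≤ ‖(a : ℂ) ^ n - σ α * (b : ℂ) ^ n‖ := by
    intro δ hδ0 hδ hu2
    rcases hab with h | h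
    · have h2 : ‖(a : ℂ)‖ = M := by
        rw [Complex.norm_intCast]
        exact_mod_cast h
      have h3 : ‖u‖ * (A * ‖(b : ℂ)‖ ^ n) = (M : ℝ) ^ n := by
        have h3' := congrArg norm hau
        rw [norm_pow, norm_mul, norm_mul, norm_pow, ← hA, h2] at h3'
        exact h3'.symm
      have h4 : ‖(a : ℂ) ^ n - σ α * (b : ℂ) ^ n‖ = ‖u - 1‖ * (A * ‖(b : ℂ)‖ ^ n) := by
        rw [hdiff, norm_mul, norm_mul, norm_pow, hA]
      have h5 : 0 ≤ A * ‖(b : ℂ)‖ ^ n := by positivity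
      -- compare `‖u - 1‖` and `‖u‖`
      have h6 : ‖u‖ * (2 * δ) ≤ 6 * ‖u - 1‖ := by
        have h7 : ‖u‖ ≤ ‖u - 1‖ + 1 := by
          calc ‖u‖ = ‖(u - 1) + 1‖ := by ring_nf
            _ ≤ ‖u - 1‖ + ‖(1 : ℂ)‖ := norm_add_le _ _
            _ = _ := by rw [norm_one]
        have h8 : ‖u‖ * (2 * δ) ≤ (‖u - 1‖ + 1) * (2 * δ) :=
          mul_le_mul_of_nonneg_right h7 (by positivity)
        nlinarith [norm_nonneg (u - 1)]
      rw [h4, ← h3]
      have h9 : ‖u‖ * (2 * δ) * (A * ‖(b : ℂ)‖ ^ n) ≤ 6 * ‖u - 1‖ * (A * ‖(b : ℂ)‖ ^ n) :=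
        mul_le_mul_of_nonneg_right h6 h5
      have h10 : m₀ ≤ 1 / 6 := hm₀6
      have h11 : 0 ≤ ‖u‖ * (2 * δ) * (A * ‖(b : ℂ)‖ ^ n) := by positivity
      have h12 := mul_le_mul_of_nonneg_right h10 h11
      calc m₀ * (2 * δ) * (‖u‖ * (A * ‖(b : ℂ)‖ ^ n))
          = m₀ * (‖u‖ * (2 * δ) * (A * ‖(b : ℂ)‖ ^ n)) := by ring
        _ ≤ 1 / 6 * (‖u‖ * (2 * δ) * (A * ‖(b : ℂ)‖ ^ n)) := h12
        _ ≤ _ := by linarith
    · have h2 : ‖(b : ℂ)‖ = M := by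
        rw [Complex.norm_intCast]
        exact_mod_cast h
      rw [hdiff, norm_mul, norm_mul, norm_pow, h2, ← hA]
      have h10 : m₀ ≤ A * (1 / 3) := hm₀A
      calc m₀ * (2 * δ) * (M : ℝ) ^ n
          ≤ A * (1 / 3) * (2 * δ) * (M : ℝ) ^ n := by
            apply mul_le_mul_of_nonneg_right _ hMn.le
            exact mul_le_mul_of_nonneg_right h10 (by positivity)
        _ ≤ δ * (A * (M : ℝ) ^ n) := by
            have : 0 ≤ A * (M : ℝ) ^ n * δ := by positivity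
            nlinarith
        _ ≤ _ := mul_le_mul_of_nonneg_right hu2 (by positivity)
  by_cases hbig : c₂ ≤ ‖u - 1‖
  · apply hsuff
    refine le_trans ?_ (hfar c₂ hc₂0 hc₂h hbig)
    apply mul_le_mul_of_nonneg_right _ hMn.le
    rw [hc]
    nlinarith
  push Not at hbig
  -- the main case
  have hM0 : M ≠ 0 := by omega
  have hMs : M < 2 ^ Nat.size M := Nat.lt_size_self M
  have hms := hmain n (by omega) a b (Nat.size M) ha0 hb0
    (ha.trans (by exact_mod_cast hMs.le)) (hb.trans (by exact_mod_cast hMs.le))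
    (Nat.size_pos.2 (by omega)) (by
      intro N hN hroot
      have hx1 : (a : K) ^ n / (α * (b : K) ^ n) ≠ 1 := by
        intro h
        apply hu1
        rw [hu]
        have := congrArg σ h
        rw [map_div₀, map_mul, map_pow, map_pow, map_intCast, map_intCast, map_one] at this
        exact this
      have h1 := hroots _ ⟨N, hN, hroot⟩ hx1
      rw [map_div₀, map_mul, map_pow, map_pow, map_intCast, map_intCast, ← hu] at h1
      linarith) (by rw [← hu]; linarith)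
  rw [← hu] at hms
  obtain ⟨δ, hδ⟩ : ∃ δ : ℝ, δ = (1 / 2 : ℝ) ^ (Nat.size n ^ κ * Nat.size M) / 2 := ⟨_, rfl⟩
  have hδ0 : 0 < δ := by rw [hδ]; positivity
  have hδh : δ ≤ 1 / 2 := by
    rw [hδ]
    have : (1 / 2 : ℝ) ^ (Nat.size n ^ κ * Nat.size M) ≤ 1 := pow_le_one₀ (by norm_num) (by norm_num)
    linarith
  have h1 := hfar δ hδ0 hδh (by rw [hδ]; linarith)
  have h2 : 1 ≤ 2 * δ * (M : ℝ) ^ (Nat.size n ^ (κ + 1)) := by
    have h3 : (2 : ℝ) ^ (Nat.size n ^ κ * Nat.size M) ≤ (M : ℝ) ^ (Nat.size n ^ (κ + 1)) := by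
      calc (2 : ℝ) ^ (Nat.size n ^ κ * Nat.size M) = (2 ^ Nat.size M) ^ (Nat.size n ^ κ) := by
            rw [← pow_mul, mul_comm]
        _ ≤ ((M : ℝ) ^ 2) ^ (Nat.size n ^ κ) := pow_le_pow_left₀ (by positivity) (size_le M hM) _
        _ = (M : ℝ) ^ (2 * Nat.size n ^ κ) := by rw [← pow_mul]
        _ ≤ _ := by
            apply pow_le_pow_right₀ (by linarith)
            rw [pow_succ, mul_comm]
            exact Nat.mul_le_mul_left _ hg2
    have h4 : 2 * δ = ((2 : ℝ) ^ (Nat.size n ^ κ * Nat.size M))⁻¹ := by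
      rw [hδ, one_div, inv_pow]
      ring
    rw [h4, ← div_eq_inv_mul, one_le_div (by positivity)]
    exact h3
  calc c * (M : ℝ) ^ n ≤ m₀ * (M : ℝ) ^ n := mul_le_mul_of_nonneg_right hcm hMn.le
    _ ≤ m₀ * (M : ℝ) ^ n * (2 * δ * (M : ℝ) ^ (Nat.size n ^ (κ + 1))) :=
        le_mul_of_one_le_right (by positivity) h2
    _ = m₀ * (2 * δ) * (M : ℝ) ^ n * (M : ℝ) ^ (Nat.size n ^ (κ + 1)) := by ring
    _ ≤ _ := mul_le_mul_of_nonneg_right h1 (by positivity)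

end Run7.h197.ES
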