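import Pool.Agent.Run7.h197.ES.Form

/-!
Integers `a`, `b` with `a ^ n = α b ^ n`.
-/

set_option autoImplicit false

namespace Run7.h197.ES

open Finset NumberField Polynomial

lemma two_pow_gt {x n : ℕ} (h : x < 2 ^ n) {y : ℕ} (hy : y ^ n = x) : y ≤ 1 := by
  by_contra hcon
  have : 2 ^ n ≤ y ^ n := Nat.pow_le_pow_left (by omega) n
  omega

lemma pow_eq_imp (α : ℂ) (hα : α ≠ 0) : ∃ n₀ : ℕ, ∀ n, n₀ ≤ n → ∀ a b : ℤ,
    (a : ℂ) ^ n = α * (b : ℂ) ^ n → a ^ 2 = b ^ 2 := by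
  by_cases hr : ∃ r : ℚ, (r : ℂ) = α
  · obtain ⟨r, hr⟩ := hr
    refine ⟨r.num.natAbs + r.den + 1, ?_⟩
    intro n hn a b hab
    have hn0 : n ≠ 0 := by omega
    by_cases hb : b = 0
    · rw [hb, Int.cast_zero, zero_pow hn0, mul_zero, pow_eq_zero_iff hn0] at hab
      have : a = 0 := by exact_mod_cast hab
      rw [this, hb]
    have hbC : (b : ℂ) ≠ 0 := Int.cast_ne_zero.2 hb
    have h1 : ((a : ℚ) / b) ^ n = r := by
      have h2 : (((a : ℚ) / b : ℚ) : ℂ) ^ n = r := by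
        push_cast
        rw [div_pow, hab, hr]
        field_simp
      exact_mod_cast h2
    obtain ⟨ρ, hρ⟩ : ∃ ρ : ℚ, ρ = (a : ℚ) / b := ⟨_, rfl⟩
    rw [← hρ] at h1
    have hr0 : r ≠ 0 := by
      rintro rfl
      rw [Rat.cast_zero] at hr
      exact hα hr.symm
    have hρ0 : ρ ≠ 0 := by
      rintro rfl
      rw [zero_pow hn0] at h1
      exact hr0 h1.symm
    have hlt : n < 2 ^ n := Nat.lt_two_pow_self
    have hnum : ρ.num.natAbs ≤ 1 := by
      apply two_pow_gt (x := r.num.natAbs) (n := n) (by omega)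
      rw [← h1, Rat.num_pow, Int.natAbs_pow]
    have hden : ρ.den ≤ 1 := by
      apply two_pow_gt (x := r.den) (n := n) (by omega)
      rw [← h1, Rat.den_pow]
    have hden1 : ρ.den = 1 := le_antisymm hden ρ.den_pos
    have hnum0 : ρ.num ≠ 0 := Rat.num_ne_zero.2 hρ0
    have hsq : ρ ^ 2 = 1 := by
      have h3 : ρ = ρ.num := by
        conv_lhs => rw [← Rat.num_div_den ρ, hden1]
        simp
      have h4 : ρ.num ^ 2 = 1 := by
        have h5 : ρ.num.natAbs = 1 := by omega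
        rw [← Int.natAbs_sq, h5]
        norm_num
      rw [h3]
      exact_mod_cast h4
    have hbQ : (b : ℚ) ≠ 0 := Int.cast_ne_zero.2 hb
    rw [hρ, div_pow, div_eq_one_iff_eq (pow_ne_zero _ hbQ)] at hsq
    exact_mod_cast hsq
  · refine ⟨1, ?_⟩
    intro n hn a b hab
    have hn0 : n ≠ 0 := by omega
    by_cases hb : b = 0
    · rw [hb, Int.cast_zero, zero_pow hn0, mul_zero, pow_eq_zero_iff hn0] at hab
      have : a = 0 := by exact_mod_cast hab
      rw [this, hb]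
    exfalso
    apply hr
    have hbC : (b : ℂ) ≠ 0 := Int.cast_ne_zero.2 hb
    refine ⟨((a : ℚ) / b) ^ n, ?_⟩
    push_cast
    rw [div_pow, hab]
    field_simp

theorem pval_zero (g : ℤ[X]) (hsq : (g.map (Int.castRingHom ℚ)).Separable) (h0 : g.coeff 0 ≠ 0) :
    ∃ n₀ : ℕ, ∀ n, n₀ ≤ n → ∀ a b : ℤ, pval g n a b = 0 → a ^ 2 = b ^ 2 := by
  classical
  have key : ∀ s : Finset ℂ, (∀ α ∈ s, α ≠ 0) → ∃ n₀ : ℕ, ∀ n, n₀ ≤ n → ∀ α ∈ s, ∀ a b : ℤ,
      (a : ℂ) ^ n = α * (b : ℂ) ^ n → a ^ 2 = b ^ 2 := by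
    intro s
    induction s using Finset.induction_on with
    | empty => exact fun _ => ⟨0, by simp⟩
    | insert α s hα ih =>
      intro hs
      obtain ⟨n₁, h1⟩ := ih fun β hβ => hs β (Finset.mem_insert_of_mem hβ)
      obtain ⟨n₂, h2⟩ := pow_eq_imp α (hs α (Finset.mem_insert_self α s))
      refine ⟨n₁ + n₂, fun n hn β hβ a b hab => ?_⟩
      rcases Finset.mem_insert.1 hβ with rfl | hβ
      · exact h2 n (by omega) a b hab
      · exact h1 n (by omega) β hβ a b hab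
  obtain ⟨n₀, hn₀⟩ := key (rts g) fun α hα => (rts_alg g h0 α hα).2
  refine ⟨n₀, fun n hn a b h => ?_⟩
  have hval := pval_eq g hsq n a b
  rw [h, Int.cast_zero] at hval
  have hlc : (g.leadingCoeff : ℂ) ≠ 0 := Int.cast_ne_zero.2 (leadingCoeff_ne_zero.2 (g_ne g h0))
  rcases mul_eq_zero.1 hval.symm with h1 | h1
  · exact absurd h1 hlc
  · obtain ⟨α, hα, h2⟩ := Finset.prod_eq_zero_iff.1 h1
    exact hn₀ n hn α hα a b (sub_eq_zero.1 h2)

end Run7.h197.ES
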